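import Pool.Agent.H24.EH.Defs
import Pool.Agent.H90.EH.Layer

/-!
# EHP (S06849), block (B): the layer formula on a circle
-/

set_option autoImplicit false

open MeasureTheory Set Filter Topology
open scoped Real

noncomputable section

namespace Pool.Agent.H73.EH

open Pool.Agent.H24.EH
open Pool.Agent.H15.EH (FData U)

theorem continuous_chi' : Continuous chi' := by
  unfold chi'
  refine Continuous.if_le continuous_const ?_ continuous_id continuous_const ?_
  · refine Continuous.if_le (by fun_prop) continuous_const continuous_id continuous_const ?_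
    intro x hx
    rw [hx]
    norm_num
  · intro x hx
    rw [hx, if_pos (by norm_num)]
    norm_num

theorem continuous_chi : Continuous chi := by
  unfold chi
  refine Continuous.if_le continuous_const ?_ continuous_id continuous_const ?_
  · refine Continuous.if_le (by fun_prop) continuous_id continuous_id continuous_const ?_
    intro x hx
    rw [hx]
    norm_num
  · intro x hx
    rw [hx, if_pos (by norm_num)]
    norm_num

theorem continuous_chi'' : Continuous chi'' := by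
  unfold chi''
  refine Continuous.if_le continuous_const ?_ continuous_id continuous_const ?_
  · refine Continuous.if_le (by fun_prop) continuous_const continuous_id continuous_const ?_
    intro x hx
    rw [hx]
    norm_num
  · intro x hx
    rw [hx, if_pos (by norm_num)]
    norm_num

theorem chi_nonneg (x : ℝ) : 0 ≤ chi x := by
  unfold chi
  split_ifs with h1 h2
  · exact le_rfl
  · have h3 : 0 ≤ x + 1 := by linarith
    have h4 : 0 ≤ 3 - x := by linarith
    positivity
  · linarith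

theorem arg_le {η t : ℝ} (hη : 0 < η) (ht : t ≤ η) : (t - 2 * η) / η ≤ -1 := by
  rw [div_le_iff₀ hη]
  linarith

theorem B1_zero {η t : ℝ} (hη : 0 < η) (ht : t ≤ η) : B1 η t = 0 := by
  unfold B1 chi'
  rw [if_pos (arg_le hη ht)]

theorem B2_zero {η t : ℝ} (hη : 0 < η) (ht : t ≤ η) : B2 η t = 0 := by
  unfold B2 chi''
  rw [if_pos (arg_le hη ht), zero_div]

theorem Bp_low {η t : ℝ} (hη : 0 < η) (ht : t ≤ η) : Bp η t = 2 * η := by
  unfold Bp chi
  rw [if_pos (arg_le hη ht)]
  ring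

theorem Bp_pos {η : ℝ} (hη : 0 < η) (t : ℝ) : 0 < Bp η t := by
  unfold Bp
  have := mul_nonneg hη.le (chi_nonneg ((t - 2 * η) / η))
  linarith

theorem wf_zero {Fg Fll Flg Fgg : ℝ → ℝ → ℝ} {η l t : ℝ} (hη : 0 < η) (ht : t ≤ η) :
    wf Fg Fll Flg Fgg η l t = 0 := by
  unfold wf FFlg FFgg
  rw [B1_zero hη ht, B2_zero hη ht]
  ring

/-- `wf` is continuous in `(l, t)` -/
theorem continuous_wf {F Fl Fg Fll Flg Fgg Fllg : ℝ → ℝ → ℝ}
    (h : FData F Fl Fg Fll Flg Fgg Fllg) {η : ℝ} (hη : 0 < η) :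
    Continuous fun x : ℝ × ℝ => wf Fg Fll Flg Fgg η x.1 x.2 := by
  have hB : Continuous (Bp η) := by
    unfold Bp
    exact continuous_const.add (continuous_const.mul (continuous_chi.comp (by fun_prop)))
  have hB1 : Continuous (B1 η) := continuous_chi'.comp (by fun_prop)
  have hB2 : Continuous (B2 η) := (continuous_chi''.comp (by fun_prop)).div_const _
  have hm : Continuous fun x : ℝ × ℝ => ((x.1, Bp η x.2) : ℝ × ℝ) :=
    continuous_fst.prodMk (hB.comp continuous_snd)
  have hU : ∀ x : ℝ × ℝ, ((x.1, Bp η x.2) : ℝ × ℝ) ∈ U := fun x => Bp_pos hη x.2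
  have c1 : Continuous fun x : ℝ × ℝ => Flg x.1 (Bp η x.2) := h.clg.comp_continuous hm hU
  have c2 : Continuous fun x : ℝ × ℝ => Fll x.1 (Bp η x.2) := h.cll.comp_continuous hm hU
  have c3 : Continuous fun x : ℝ × ℝ => Fgg x.1 (Bp η x.2) := h.cgg.comp_continuous hm hU
  have c4 : Continuous fun x : ℝ × ℝ => Fg x.1 (Bp η x.2) := h.cg.comp_continuous hm hU
  have c5 : Continuous fun x : ℝ × ℝ => B1 η x.2 := hB1.comp continuous_snd
  have c6 : Continuous fun x : ℝ × ℝ => B2 η x.2 := hB2.comp continuous_snd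
  unfold wf FFlg FFll FFgg
  exact ((c1.mul c5).pow 2).sub (c2.mul ((c3.mul (c5.pow 2)).add (c4.mul c6)))

/-- `q` is an integral of layers -/
theorem qf_eq {Fl Fg Fll Flg Fgg : ℝ → ℝ → ℝ} {η : ℝ} (hη : 0 < η) (l g : ℝ) :
    qf Fl Fg Fll Flg Fgg η l g =
      Fl l (2 * η) ^ 2 + ∫ t in η..g, (g - t) * (2 * wf Fg Fll Flg Fgg η l t) := by
  unfold qf Pool.Agent.H15.EH.q
  have h1 : FFg Fg η l η = 0 := by
    unfold FFg
    rw [B1_zero hη le_rfl, mul_zero]
  have h2 : FFl Fl η l η = Fl l (2 * η) := by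
    unfold FFl
    rw [Bp_low hη le_rfl]
  rw [h1, h2, ← intervalIntegral.integral_const_mul]
  have h3 : ∀ t, 2 * ((g - t) * Pool.Agent.H15.EH.D (FFll Fll η) (FFlg Flg η) (FFgg Fg Fgg η) l t) =
      (g - t) * (2 * wf Fg Fll Flg Fgg η l t) := by
    intro t
    unfold Pool.Agent.H15.EH.D wf
    ring
  simp_rw [h3]
  ring

theorem qf_low {Fl Fg Fll Flg Fgg : ℝ → ℝ → ℝ} {η : ℝ} (hη : 0 < η) (l g : ℝ) (hg : g ≤ η) :
    qf Fl Fg Fll Flg Fgg η l g = Fl l (2 * η) ^ 2 := by
  rw [qf_eq hη]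
  have : ∫ t in η..g, (g - t) * (2 * wf Fg Fll Flg Fgg η l t) = ∫ _t in η..g, (0 : ℝ) := by
    refine intervalIntegral.integral_congr fun t ht => ?_
    rw [uIcc_of_ge hg] at ht
    rw [wf_zero hη ht.2]
    ring
  rw [this]
  simp

/-- (B) layer formula on a circle -/
theorem layer {F Fl Fg Fll Flg Fgg Fllg : ℝ → ℝ → ℝ} (h : FData F Fl Fg Fll Flg Fgg Fllg)
    {y : ℝ × ℝ → ℝ} (hy : YData y) {η : ℝ} (hη : 0 < η) (l T : ℝ) (hT : η ≤ T)
    (hyT : ∀ φ, y (l, φ) ≤ T) :
    (∫ φ in (0 : ℝ)..2 * π, qf Fl Fg Fll Flg Fgg η l (y (l, φ))) =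
      2 * π * Fl l (2 * η) ^ 2 + ∫ t in η..T, 2 * wf Fg Fll Flg Fgg η l t * J y l t := by
  have hc : Continuous fun φ : ℝ => max (y (l, φ)) η :=
    (hy.cont.comp (by fun_prop : Continuous fun φ : ℝ => ((l, φ) : ℝ × ℝ))).max continuous_const
  have hw : Continuous fun t => 2 * wf Fg Fll Flg Fgg η l t :=
    continuous_const.mul ((continuous_wf h hη).comp (by fun_prop : Continuous fun t : ℝ => ((l, t) : ℝ × ℝ)))
  have h1 := Pool.Agent.H90.EH.layer_int (a := 0) (b := 2 * π) (e := η) (M := T)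
    (by positivity) (X := fun φ => max (y (l, φ)) η) (w := fun t => 2 * wf Fg Fll Flg Fgg η l t)
    (q := fun g => qf Fl Fg Fll Flg Fgg η l g) (q0 := Fl l (2 * η) ^ 2) (q1 := 0)
    hc.continuousOn (fun φ _ => le_max_right _ _) (fun φ _ => max_le (hyT φ) hT)
    hw.continuousOn (fun g _ => by
      rw [qf_eq hη]
      ring)
  have h2 : (∫ φ in (0 : ℝ)..2 * π, qf Fl Fg Fll Flg Fgg η l (y (l, φ))) =
      ∫ φ in (0 : ℝ)..2 * π, qf Fl Fg Fll Flg Fgg η l (max (y (l, φ)) η) := by
    refine intervalIntegral.integral_congr fun φ _ => ?_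
    rcases le_total (y (l, φ)) η with h3 | h3
    · rw [max_eq_right h3, qf_low hη l _ h3, qf_low hη l _ le_rfl]
    · rw [max_eq_left h3]
  rw [h2]
  refine h1.trans ?_
  rw [sub_zero, zero_mul, add_zero]
  congr 1
  refine intervalIntegral.integral_congr fun t ht => ?_
  rw [uIcc_of_le hT] at ht
  unfold J
  congr 1
  refine intervalIntegral.integral_congr fun φ _ => ?_
  exact Pool.Agent.H90.EH.layer_cut ht.1

end Pool.Agent.H73.EH
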